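import Mathlib
import Pool.Agent.BrFive.Final

/-!
There is a del Pezzo surface `S` of degree one over `ℂ(t)`, a smooth sextic in `P(1,1,2,3)`, such
that the unramified Brauer group over `ℂ` of the function field of `S` contains an element of
order five.
-/

namespace Pool.Agent.Results.MP_358a28_ag.OrderFive

open Pool.Agent.BrFive

theorem result : ∃ P : MvPolynomial (Fin 4) (RatFunc ℂ), IsDelPezzoOne P ∧
    ∃ _ : IsDomain (ChartRing P), ∃ α ∈ unramifiedBrauer ℂ (FunctionField P), orderOf α = 5 := by
  obtain ⟨u, hu⟩ : ∃ u : ℂ, u^2 + u - 1 = 0 := by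
    obtain ⟨u, hu⟩ := IsAlgClosed.exists_root (k := ℂ)
      (Polynomial.X^2 + Polynomial.X - 1) (by
        have : (Polynomial.X^2 + Polynomial.X - 1 : Polynomial ℂ).degree = 2 := by
          compute_degree!
        rw [this]; norm_num)
    exact ⟨u, by simpa using hu⟩
  exact ⟨sextic u, isDelPezzoOne_sextic hu, isDomain_chart u, order_five hu⟩

end Pool.Agent.Results.MP_358a28_ag.OrderFive
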